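import Mathlib
import Pool.Agent.H864D.Shape

set_option autoImplicit false

namespace Pool.Agent.Results.MP_4f6c32_ag.DecomposableSchur

open scoped ComplexOrder
open H864D

/-- **Griffiths' question for decomposably positive bundles, all Schur forms.**
`Θ i j` is the coefficient of `dz_i ∧ dz̄_j` in the Chern curvature at a point, written in a unitary
frame of the fibre `ℂ^r`; `σ` is a partition of `k` into parts `≤ r`, `e` a numbering of its boxes.
If `Θ` is the sum of a Nakano semipositive and a dual Nakano semipositive tensor, then the Schur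
form of `σ` is nonnegative on every `k`-tuple of tangent vectors; if moreover `Θ` is Griffiths
positive, it is strictly positive on every linearly independent `k`-tuple. -/
theorem result {n r k m : ℕ} (σ : Fin m → ℕ) (_hanti : Antitone σ) (hσ : ∀ a, σ a ≤ r)
    (e : Fin k ≃ Σ a : Fin m, Fin (σ a))
    (Θ Θ₁ Θ₂ : Fin n → Fin n → Matrix (Fin r) (Fin r) ℂ)
    (hdec : ∀ i j, Θ i j = Θ₁ i j + Θ₂ i j) (h₁ : NakanoSemipositive Θ₁)
    (h₂ : DualNakanoSemipositive Θ₂) (v : Fin k → Fin n → ℂ) :
    0 ≤ schurForm σ hσ e Θ v ∧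
      (GriffithsPositive Θ → LinearIndependent ℂ v → 0 < schurForm σ hσ e Θ v) :=
  schur_decomposable σ hσ e Θ Θ₁ Θ₂ hdec h₁ h₂ v

end Pool.Agent.Results.MP_4f6c32_ag.DecomposableSchur
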